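import Pool.Agent.Run7.h426.DOM.Iface

/-!
# MP_0828a1_co, piece L6A (helper333 for helper426)
-/

set_option autoImplicit false

namespace Run7.h426.DOM

open Finset

theorem h333_sum {v : ℕ} {I : Finset ℕ} {E : ℕ → Finset ℕ} (φ : ℕ → ℕ) (h : Sz34 I E) :
    ∑ i ∈ I with v ∈ E i, φ (E i).card = φ 4 * dg 4 v I E + φ 3 * dg 3 v I E := by
  have h1 : ∀ i ∈ I.filter (fun i => v ∈ E i), φ (E i).card =
      φ 4 * (if (E i).card = 4 then 1 else 0) + φ 3 * (if (E i).card = 3 then 1 else 0) := by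
    intro i hi
    rcases h i (mem_filter.1 hi).1 with h | h <;> simp [h]
  rw [sum_congr rfl h1, sum_add_distrib, ← mul_sum, ← mul_sum, ← card_filter, ← card_filter,
    filter_filter, filter_filter]
  rfl

theorem t_L6A : S_L6A := by
  intro I E _ hL hSz hLin hTy ⟨f, hf, hf3, ⟨v, hvf, hv4⟩, a, haf, ha3⟩
  have hvU : v ∈ U I E := mem_biUnion.2 ⟨f, hf, hvf⟩
  have haU : a ∈ U I E := mem_biUnion.2 ⟨f, hf, haf⟩
  have hv3 : dg 3 v I E = 1 := by
    rcases hTy v hvU with h | h | h <;> omega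
  have ha4 : dg 4 a I E = 0 := by
    rcases hTy a haU with h | h | h <;> omega
  have hva : v ≠ a := by
    rintro rfl
    omega
  -- the edge of size 4 through v
  have hk : ∃ k ∈ I, v ∈ E k ∧ (E k).card = 4 := by
    have h1 : 0 < (I.filter (fun i => v ∈ E i ∧ (E i).card = 4)).card := by
      have : dg 4 v I E = (I.filter (fun i => v ∈ E i ∧ (E i).card = 4)).card := rfl
      omega
    obtain ⟨k, hk⟩ := card_pos.1 h1
    exact ⟨k, (mem_filter.1 hk).1, (mem_filter.1 hk).2⟩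
  obtain ⟨k, hkI, hvk, hk4⟩ := hk
  have hkf : k ≠ f := by
    rintro rfl
    omega
  -- the second edge through a
  have hf2 : ∃ f2 ∈ I, f2 ≠ f ∧ a ∈ E f2 ∧ (E f2).card = 3 := by
    have h1 : 1 < (I.filter (fun i => a ∈ E i ∧ (E i).card = 3)).card := by
      have : dg 3 a I E = (I.filter (fun i => a ∈ E i ∧ (E i).card = 3)).card := rfl
      omega
    obtain ⟨f2, hf2, hne⟩ := exists_mem_ne h1 f
    exact ⟨f2, (mem_filter.1 hf2).1, hne, (mem_filter.1 hf2).2⟩
  obtain ⟨f2, hf2I, hf2f, haf2, hf23⟩ := hf2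
  have hkf2 : k ≠ f2 := by
    rintro rfl
    omega
  -- the edges through a
  have hedges_a : ∀ j ∈ I, a ∈ E j → j = f ∨ j = f2 := by
    intro j hj haj
    have h1 : ({f, f2} : Finset ℕ) ⊆ I.filter (fun i => a ∈ E i) := by
      intro i hi
      rcases mem_insert.1 hi with rfl | hi
      · exact mem_filter.2 ⟨hf, haf⟩
      · rw [mem_singleton] at hi
        subst hi
        exact mem_filter.2 ⟨hf2I, haf2⟩
    have h2 : (I.filter (fun i => a ∈ E i)).card = 2 := by
      rw [deg_eq hSz]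
      omega
    have h3 : ({f, f2} : Finset ℕ) = I.filter (fun i => a ∈ E i) := by
      apply eq_of_subset_of_card_le h1
      rw [h2, card_pair hf2f.symm]
    have h4 : j ∈ ({f, f2} : Finset ℕ) := by
      rw [h3]
      exact mem_filter.2 ⟨hj, haj⟩
    simpa using h4
  -- the edges through v
  have hedges_v : ∀ j ∈ I, v ∈ E j → j ≠ f → (E j).card = 4 := by
    intro j hj hvj hjf
    rcases hSz j hj with h | h
    · exfalso
      have h1 : (I.filter (fun i => v ∈ E i ∧ (E i).card = 3)).card ≤ 1 := by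
        have : dg 3 v I E = (I.filter (fun i => v ∈ E i ∧ (E i).card = 3)).card := rfl
        omega
      exact hjf (card_le_one.1 h1 j (mem_filter.2 ⟨hj, hvj, h⟩) f (mem_filter.2 ⟨hf, hvf, hf3⟩))
    · exact h
  have hvf2 : v ∉ E f2 := fun h => hva (hLin f hf f2 hf2I hf2f.symm v hvf h a haf haf2)
  -- shrink v
  refine shrink (s := 1) (g := 0) (c := 1) v hvU ?_ ?_
  · rw [h333_sum (fun n => wt (n - 1)) hSz, h333_sum wt hSz, hv4, hv3]
    decide
  -- take a
  have haU' : a ∈ U I (sh v E) := by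
    rw [U_sh]
    exact mem_erase.2 ⟨hva.symm, haU⟩
  refine take (s := 1) (g := 1) a ∅ haU' (by simp) (by simp) (by simp) ?_ ?_
  · have hsub : ({f, f2} : Finset ℕ) ⊆ I.filter (fun i => a ∈ sh v E i) := by
      intro i hi
      rcases mem_insert.1 hi with rfl | hi
      · exact mem_filter.2 ⟨hf, mem_erase.2 ⟨hva.symm, haf⟩⟩
      · rw [mem_singleton] at hi
        subst hi
        exact mem_filter.2 ⟨hf2I, mem_erase.2 ⟨hva.symm, haf2⟩⟩
    have h1 : ∑ i ∈ ({f, f2} : Finset ℕ), wt (sh v E i).card ≤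
        ∑ i ∈ I with a ∈ sh v E i, wt (sh v E i).card :=
      sum_le_sum_of_subset hsub
    rw [sum_pair hf2f.symm] at h1
    have h2 : (sh v E f).card = 2 := by
      rw [sh, card_erase_of_mem hvf, hf3]
    have h3 : (sh v E f2).card = 3 := by
      rw [sh, erase_eq_of_notMem hvf2, hf23]
    rw [h2, h3] at h1
    have h4 : wt 2 + wt 3 = 8 := by decide
    simp only [card_empty]
    omega
  -- the rest
  have hmemJ : ∀ j ∈ I, j ≠ f → j ≠ f2 → j ∈ tk a I (sh v E) := by
    intro j hj h1 h2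
    refine mem_filter.2 ⟨hj, fun h => ?_⟩
    rcases hedges_a j hj (mem_of_mem_erase h) with h | h
    · exact h1 h
    · exact h2 h
  have hJ : ∀ j ∈ tk a I (sh v E), j ∈ I ∧ j ≠ f := by
    intro j hj
    refine ⟨(mem_filter.1 hj).1, ?_⟩
    rintro rfl
    exact (mem_filter.1 hj).2 (mem_erase.2 ⟨hva.symm, haf⟩)
  refine hL _ _ ?_ ?_ (hLin.sh.tk) ?_
  · exact (U_tk_lt haU').trans (U_sh_lt hvU)
  · intro j hj
    obtain ⟨hjI, hjf⟩ := hJ j hj
    by_cases hvj : v ∈ E j
    · left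
      rw [sh, card_erase_of_mem hvj, hedges_v j hjI hvj hjf]
    · rw [sh, erase_eq_of_notMem hvj]
      exact hSz j hjI
  · right
    have hkJ : k ∈ tk a I (sh v E) := hmemJ k hkI hkf hkf2
    have hkc : (sh v E k).card = 3 := by
      rw [sh, card_erase_of_mem hvk, hk4]
    refine ⟨k, hkJ, hkc, ?_⟩
    -- a vertex of k outside f2
    have hx : ∃ x ∈ sh v E k, x ∉ E f2 := by
      by_contra hcon
      push Not at hcon
      have h1 : 1 < (sh v E k).card := by omega
      obtain ⟨x, hx, y, hy, hxy⟩ := one_lt_card.1 h1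
      exact hxy (hLin k hkI f2 hf2I hkf2 x (mem_of_mem_erase hx) (hcon x hx) y
        (mem_of_mem_erase hy) (hcon y hy))
    obtain ⟨x, hxk, hxf2⟩ := hx
    have hxv : x ≠ v := ne_of_mem_erase hxk
    have hxk' : x ∈ E k := mem_of_mem_erase hxk
    have hxf : x ∉ E f := fun h => hxv (hLin k hkI f hf hkf x hxk' h v hvk hvf)
    have hxU : x ∈ U I E := mem_biUnion.2 ⟨k, hkI, hxk'⟩
    have hdeg : 1 < (I.filter (fun i => x ∈ E i)).card := by
      rw [deg_eq hSz]
      rcases hTy x hxU with h | h | h <;> omega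
    obtain ⟨j, hj, hjk⟩ := exists_mem_ne hdeg k
    obtain ⟨hjI, hxj⟩ := mem_filter.1 hj
    have hjf : j ≠ f := by
      rintro rfl
      exact hxf hxj
    have hjf2 : j ≠ f2 := by
      rintro rfl
      exact hxf2 hxj
    exact ⟨j, hmemJ j hjI hjf hjf2, hjk.symm, x, hxk, mem_erase.2 ⟨hxv, hxj⟩⟩

end Run7.h426.DOM
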